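import Pool.Agent.Lib_helper70.PS.Defs

set_option autoImplicit false

/-!
Module M3 of MP_8191b7_co: `k + 2` disjoint connected sets in a graph of treewidth at most `k`:
two of them are separated by at most `k + 1` vertices avoiding both.
-/

namespace PS

namespace M3

variable {N : Type}

/-- the side of the vertex `t'` of the edge `t t'` -/
def C (T : SimpleGraph N) (t t' : N) : Set N := {x | (T \ SimpleGraph.fromEdgeSet {s(t, t')}).Reachable t' x}

theorem mem_self (T : SimpleGraph N) (t t' : N) : t' ∈ C T t t' := SimpleGraph.Reachable.refl _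

theorem notMem (T : SimpleGraph N) (hT : T.IsAcyclic) {t t' : N} (h : T.Adj t t') : t ∉ C T t t' := by
  intro hc
  have h1 := (SimpleGraph.isAcyclic_iff_forall_adj_isBridge.1 hT) h
  rw [SimpleGraph.isBridge_iff] at h1
  exact h1 hc.symm

theorem step (T : SimpleGraph N) {t t' x y : N} (hx : x ∈ C T t t') (hxy : T.Adj x y)
    (hne : s(x, y) ≠ s(t, t')) : y ∈ C T t t' := by
  refine hx.trans (SimpleGraph.Adj.reachable ?_)
  rw [SimpleGraph.sdiff_adj, SimpleGraph.fromEdgeSet_adj]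
  refine ⟨hxy, fun h => hne (by simpa using h.1)⟩

theorem cross (T : SimpleGraph N) {t t' x y : N} (p : T.Walk x y) (hx : x ∈ C T t t')
    (hy : y ∉ C T t t') : t ∈ p.support ∧ t' ∈ p.support := by
  obtain ⟨d, hd, h1, h2⟩ := p.exists_boundary_dart _ hx hy
  have h3 : s(d.fst, d.snd) = s(t, t') := by
    by_contra hne
    exact h2 (step T h1 d.adj hne)
  have a1 := p.dart_fst_mem_support_of_mem_darts hd
  have a2 := p.dart_snd_mem_support_of_mem_darts hd
  rw [Sym2.eq_iff] at h3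
  rcases h3 with ⟨h, h'⟩ | ⟨h, h'⟩
  · rw [← h, ← h']; exact ⟨a1, a2⟩
  · rw [← h, ← h']; exact ⟨a2, a1⟩

/-- a connected set of nodes meeting both sides contains both ends -/
theorem cross_set (T : SimpleGraph N) {t t' x y : N} (K : Set N) (hK : (T.induce K).Preconnected)
    (hxK : x ∈ K) (hyK : y ∈ K) (hx : x ∈ C T t t') (hy : y ∉ C T t t') : t ∈ K ∧ t' ∈ K := by
  obtain ⟨w⟩ := hK ⟨x, hxK⟩ ⟨y, hyK⟩
  have h := cross T (w.map (SimpleGraph.Embedding.induce K).toHom) hx hy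
  simp only [SimpleGraph.Walk.support_map, List.mem_map] at h
  obtain ⟨⟨a, _, ha⟩, ⟨b, _, hb⟩⟩ := h
  constructor
  · rw [← ha]; exact a.2
  · rw [← hb]; exact b.2

theorem C_ssubset (T : SimpleGraph N) (hT : T.IsAcyclic) {t t' t'' : N} (h : T.Adj t t')
    (h' : T.Adj t' t'') (hne : t'' ≠ t) : C T t' t'' ⊂ C T t t' := by
  classical
  have hsub : C T t' t'' ⊆ C T t t' := by
    intro x hx
    by_contra hcon
    have hx' := hx
    obtain ⟨w⟩ := hx'
    have h1 : t'' ∈ C T t t' := by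
      refine step T (mem_self T t t') h' ?_
      rw [Ne, Sym2.eq_iff]
      rintro (⟨h2, _⟩ | ⟨_, h2⟩)
      · exact h.ne h2.symm
      · exact hne h2
    have h2 := (cross T (w.map (SimpleGraph.Hom.ofLE sdiff_le)) h1 hcon).2
    simp only [SimpleGraph.Walk.support_map, List.mem_map] at h2
    obtain ⟨b, hb, hb'⟩ := h2
    have hb2 : b = t' := hb'
    rw [hb2] at hb
    exact notMem T hT h' ⟨w.takeUntil _ hb⟩
  refine ⟨hsub, fun hc => ?_⟩
  exact notMem T hT h' (hc (mem_self T t t'))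

/-- the first step towards a node -/
theorem towards (T : SimpleGraph N) (hT : T.IsTree) {t x : N} (hne : x ≠ t) :
    ∃ t', T.Adj t t' ∧ x ∈ C T t t' := by
  classical
  obtain ⟨w⟩ := hT.1.preconnected t x
  obtain ⟨p, hp⟩ : ∃ p : T.Walk t x, p.IsPath := ⟨w.toPath.1, w.toPath.2⟩
  cases p with
  | nil => exact absurd rfl hne
  | @cons _ t' _ h q =>
    refine ⟨t', h, ?_⟩
    rw [SimpleGraph.Walk.cons_isPath_iff] at hp
    by_contra hx
    exact hp.2 (cross T q (mem_self T t t') hx).1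

end M3

open M3 in
theorem separator_of_tw {V : Type} [Fintype V] (G : SimpleGraph V) (k : ℕ) (h : HasTW G k)
    (S : Fin (k + 2) → Set V) (hS : ∀ i, (G.induce (S i)).Connected)
    (hdis : ∀ i j, i ≠ j → Disjoint (S i) (S j)) :
    ∃ i j, i ≠ j ∧ ∃ (X : Finset V) (L : Set V), X.card ≤ k + 1 ∧ S i ⊆ L ∧
      Disjoint (S j) L ∧ Disjoint (S j) (X : Set V) ∧ Disjoint L (X : Set V) ∧
      ∀ a ∈ L, ∀ b, G.Adj a b → b ∈ L ∨ b ∈ X := by
  classical
  obtain ⟨m, T, B, hT, hE, hV, hW⟩ := h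
  -- every bag misses one of the sets
  have hmiss : ∀ t, ∃ i, Disjoint (S i) (B t : Set V) := by
    intro t
    by_contra hcon
    push Not at hcon
    have hc : ∀ i, ∃ v, v ∈ S i ∧ v ∈ B t := by
      intro i
      obtain ⟨v, hv, hv'⟩ := Set.not_disjoint_iff.1 (hcon i)
      exact ⟨v, hv, hv'⟩
    choose f hf hf' using hc
    have hinj : Function.Injective f := by
      intro i j hij
      by_contra hne
      exact Set.disjoint_left.1 (hdis i j hne) (hf i) (hij ▸ hf j)
    have h1 : (Finset.univ.image f).card ≤ (B t).card :=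
      Finset.card_le_card (by
        intro v hv
        obtain ⟨i, _, rfl⟩ := Finset.mem_image.1 hv
        exact hf' i)
    rw [Finset.card_image_of_injective _ hinj, Finset.card_univ, Fintype.card_fin] at h1
    have := hW t
    omega
  -- the good triples
  have hgood : ∀ t, ∃ t' i, T.Adj t t' ∧ Disjoint (S i) (B t : Set V) ∧
      ∃ v ∈ S i, ∃ x ∈ C T t t', v ∈ B x := by
    intro t
    obtain ⟨i, hi⟩ := hmiss t
    obtain ⟨⟨v, hv⟩⟩ := (hS i).nonempty
    obtain ⟨⟨x, hx⟩⟩ := (hV v).nonempty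
    have hne : x ≠ t := by
      rintro rfl
      exact Set.disjoint_left.1 hi hv hx
    obtain ⟨t', h1, h2⟩ := towards T hT hne
    exact ⟨t', i, h1, hi, v, hv, x, h2, hx⟩
  -- two opposite ones
  have hopp : ∃ t t' i j, T.Adj t t' ∧ Disjoint (S i) (B t : Set V) ∧
      (∃ v ∈ S i, ∃ x ∈ C T t t', v ∈ B x) ∧ Disjoint (S j) (B t' : Set V) ∧
      ∃ v ∈ S j, ∃ x ∈ C T t' t, v ∈ B x := by
    have key : ∀ n : ℕ, ∀ t t' i, (C T t t').ncard ≤ n → T.Adj t t' →
        Disjoint (S i) (B t : Set V) → (∃ v ∈ S i, ∃ x ∈ C T t t', v ∈ B x) →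
        ∃ t t' i j, T.Adj t t' ∧ Disjoint (S i) (B t : Set V) ∧
        (∃ v ∈ S i, ∃ x ∈ C T t t', v ∈ B x) ∧ Disjoint (S j) (B t' : Set V) ∧
        ∃ v ∈ S j, ∃ x ∈ C T t' t, v ∈ B x := by
      intro n
      induction n with
      | zero =>
        intro t t' i h0 _ _ _
        exfalso
        have : (C T t t') = ∅ := (Set.ncard_eq_zero (Set.toFinite _)).1 (Nat.le_zero.1 h0)
        have h1 := mem_self T t t'
        rw [this] at h1
        exact h1
      | succ n ih =>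
        intro t t' i hn hadj hdi hex
        obtain ⟨t'', j, hadj', hdj, hex'⟩ := hgood t'
        by_cases hne : t'' = t
        · subst hne
          exact ⟨t'', t', i, j, hadj, hdi, hex, hdj, hex'⟩
        · refine ih t' t'' j ?_ hadj' hdj hex'
          have := Set.ncard_lt_ncard (C_ssubset T hT.2 hadj hadj' hne) (Set.toFinite _)
          omega
    obtain ⟨t⟩ := hT.1.nonempty
    obtain ⟨t', i, h1, h2, h3⟩ := hgood t
    exact key _ t t' i le_rfl h1 h2 h3
  obtain ⟨t, t', i, j, hadj, hdi, ⟨v, hv, x, hx, hvx⟩, hdj, ⟨w, hw, y, hy, hwy⟩⟩ := hopp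
  have hy' : y ∉ C T t t' := by
    intro hc
    refine notMem T hT.2 hadj ?_
    have h1 : (T \ SimpleGraph.fromEdgeSet {s(t', t)}).Reachable t y := hy
    rw [Sym2.eq_swap] at h1
    exact hc.trans h1.symm
  -- a vertex outside the separator has all its bags on one side
  have hside : ∀ u, u ∉ B t ∩ B t' → ∀ x ∈ C T t t', u ∈ B x → ∀ z, u ∈ B z → z ∈ C T t t' := by
    intro u hu x hx hux z huz
    by_contra hz
    have := cross_set T {s | u ∈ B s} (hV u).preconnected hux huz hx hz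
    exact hu (Finset.mem_inter.2 this)
  have hset : ∀ l, Disjoint (S l) ((B t ∩ B t' : Finset V) : Set V) → ∀ u ∈ S l, ∀ u' ∈ S l,
      (∃ x ∈ C T t t', u ∈ B x) → ∃ x ∈ C T t t', u' ∈ B x := by
    intro l hl u hu u' hu' hux
    by_contra hcon
    obtain ⟨p⟩ := (hS l).preconnected ⟨u, hu⟩ ⟨u', hu'⟩
    obtain ⟨d, _, h1, h2⟩ := p.exists_boundary_dart {a | ∃ x ∈ C T t t', a.1 ∈ B x} hux hcon
    obtain ⟨z, hz, hz'⟩ := hE _ _ (SimpleGraph.comap_adj.1 d.adj)
    obtain ⟨x, hx, hux⟩ := h1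
    have h3 : (d.fst : V) ∉ B t ∩ B t' := fun hc =>
      Set.disjoint_left.1 hl d.fst.2 (Finset.mem_coe.2 hc)
    exact h2 ⟨z, hside _ h3 x hx hux z hz, hz'⟩
  have hdi' : Disjoint (S i) ((B t ∩ B t' : Finset V) : Set V) :=
    hdi.mono_right (by simp)
  have hdj' : Disjoint (S j) ((B t ∩ B t' : Finset V) : Set V) :=
    hdj.mono_right (by simp)
  have hjL : ∀ u ∈ S j, ¬ ∃ x ∈ C T t t', u ∈ B x := by
    intro u hu hc
    obtain ⟨x', hx', hwx'⟩ := hset j hdj' u hu w hw hc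
    have h3 : w ∉ B t ∩ B t' := fun hc =>
      Set.disjoint_left.1 hdj' hw (Finset.mem_coe.2 hc)
    exact hy' (hside w h3 x' hx' hwx' y hwy)
  refine ⟨i, j, ?_, B t ∩ B t', {u | u ∉ B t ∩ B t' ∧ ∃ x ∈ C T t t', u ∈ B x}, ?_, ?_, ?_,
    hdj', ?_, ?_⟩
  · rintro rfl
    exact hjL v hv ⟨x, hx, hvx⟩
  · exact (Finset.card_le_card Finset.inter_subset_left).trans (hW t)
  · intro u hu
    exact ⟨fun hc => Set.disjoint_left.1 hdi' hu (Finset.mem_coe.2 hc),
      hset i hdi' v hv u hu ⟨x, hx, hvx⟩⟩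
  · rw [Set.disjoint_left]
    intro u hu hc
    exact hjL u hu hc.2
  · rw [Set.disjoint_left]
    intro u hu hc
    exact hu.1 (Finset.mem_coe.1 hc)
  · rintro a ⟨ha, x', hx', hax'⟩ b hab
    by_cases hb : b ∈ B t ∩ B t'
    · exact Or.inr hb
    · left
      obtain ⟨z, hz, hz'⟩ := hE a b hab
      exact ⟨hb, z, hside a ha x' hx' hax' z hz, hz'⟩

end PS
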